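import Pool.Agent.H673R2.PdpPoly
import Pool.Agent.H673R2.Search

/-!
# MP_f8c24f_lc: partially disjoint directed paths with terminals on three faces are NP-hard
-/

namespace Pool.Agent.Results.MP_f8c24f_lc.ThreeFacesNPHard

open Pool.Agent.NPC Pool.Agent.H673R2 Pool.Agent.H673R2.Pdp

/-- An instance of the partially disjoint paths problem in a directed plane graph: the list of the
coordinates of the vertices `0, 1, …` (the graph is drawn with straight segments), the list of the
arcs, the list of the terminal pairs `(r_1, s_1), …, (r_k, s_k)`, and the list of the pairs in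
`F`. -/
abbrev Inst : Type := List (ℕ × ℕ) × List (ℕ × ℕ) × List (ℕ × ℕ) × List (ℕ × ℕ)

/-- The instance is well formed, the coordinates give a plane drawing of the digraph, the `2k`
terminals are pairwise different vertices, and they all lie on the boundaries of at most `p` faces
of the drawing. -/
def OnFaces (p : ℕ) (I : Inst) : Prop :=
  WellFormed I.1.length I.2.1 I.2.2.1 I.2.2.2 ∧
    IsPlaneDrawing I.1.length I.2.1 (posOf I.1) ∧
    DistinctTerminals I.2.2.1 ∧
    TerminalsOnFaces I.1.length I.2.1 I.2.2.1 (posOf I.1) p

/-- `P` is a solution of the instance `I`. -/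
def Sol (I : Inst) (P : List (List ℕ)) : Prop := IsSolution I.2.1 I.2.2.1 I.2.2.2 P

/-- For every `p ≥ 3`, the partially disjoint paths problem is `NP`-hard on directed plane graphs
with all terminals on the boundaries of at most `p` faces; so if `P ≠ NP`, no polynomial-time
algorithm finds the paths, or reports that there are none, for all such instances. -/
theorem result : ∀ p ≥ 3,
    NPHardOn (OnFaces p) (fun I => ∃ P, Sol I P) ∧
    (PneNP → ¬ ∃ f : List Bool → List Bool, PolyTime f ∧ SolvesSearch (OnFaces p) Sol f) := by
  intro p hp
  have h : NPHardOn (OnFaces p) (fun I => ∃ P, Sol I P) := by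
    refine npHardOn_of hardPr_EqSat
      (f := fun cs => ((posL cs.length, arcsOf (kk cs.length) (ty cs.length),
        termsOf (kk cs.length), FF cs) : Inst)) ?_ ?_ ?_
    · have hn : UPoly (fun cs : List Con => cs.length) := UPoly.length Poly.id
      exact Poly.pair (p_posL hn) (Poly.pair (p_arcs hn) (Poly.pair (p_terms hn) p_FF))
    · intro cs hok
      have hl := posL_length cs.length
      refine ⟨?_, ?_, distinctTerminals _, ?_⟩
      · simp only
        rw [hl]
        exact wellFormed hok
      · simp only
        rw [hl]
        exact isPlaneDrawing (kk_pos _) (posOK _) (ty_lt _)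
      · simp only
        rw [hl]
        obtain ⟨S, hS, h1, h2⟩ := terminalsOnFaces (kk_pos _) (posOK cs.length) (ty_lt _)
        exact ⟨S, hS.trans hp, h1, h2⟩
    · intro cs hok
      exact solvable_FF hok
  exact ⟨h, no_search h⟩

end Pool.Agent.Results.MP_f8c24f_lc.ThreeFacesNPHard
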